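import Mathlib

/-!
# A contraction of class `C₁₁` is quasi-similar to its unitary asymptote

If `T` is a contraction of class `C₁₁` and `X T = U X` with `U` unitary, `X` of dense range and
`‖X x‖ = lim ‖T^n x‖`, then `Y = A_* X†` satisfies `T Y = Y U`, where `A_* = lim T^n T†^n`.
-/

set_option autoImplicit false
open Filter Topology
open scoped InnerProductSpace ComplexConjugate

namespace Pool.Agent.W730.OT

variable {H : Type*} [NormedAddCommGroup H] [InnerProductSpace ℂ H] [CompleteSpace H]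
variable {K : Type*} [NormedAddCommGroup K] [InnerProductSpace ℂ K] [CompleteSpace K]

theorem pow_norm_le {S : H →L[ℂ] H} (hS : ‖S‖ ≤ 1) (n : ℕ) (x : H) : ‖(S ^ n) x‖ ≤ ‖x‖ := by
  induction n with
  | zero => simp
  | succ n ih =>
    rw [pow_succ', mul_apply_eq_comp]
    calc ‖S ((S ^ n) x)‖ ≤ ‖S‖ * ‖(S ^ n) x‖ := S.le_opNorm _
      _ ≤ 1 * ‖x‖ := by gcongr
      _ = ‖x‖ := one_mul _

theorem pow_norm_antitone {S : H →L[ℂ] H} (hS : ‖S‖ ≤ 1) (x : H) :
    Antitone (fun n : ℕ => ‖(S ^ n) x‖) := by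
  refine antitone_nat_of_succ_le fun n => ?_
  rw [pow_succ', mul_apply_eq_comp]
  calc ‖S ((S ^ n) x)‖ ≤ ‖S‖ * ‖(S ^ n) x‖ := S.le_opNorm _
    _ ≤ 1 * ‖(S ^ n) x‖ := by gcongr
    _ = ‖(S ^ n) x‖ := one_mul _

theorem norm_lim {S : H →L[ℂ] H} (hS : ‖S‖ ≤ 1) (x : H) :
    ∃ l : ℝ, Tendsto (fun n : ℕ => ‖(S ^ n) x‖) atTop (𝓝 l) :=
  ⟨_, tendsto_atTop_ciInf (pow_norm_antitone hS x)
    ⟨0, by rintro _ ⟨n, rfl⟩; exact norm_nonneg _⟩⟩

theorem inner_lim {S : H →L[ℂ] H} (hS : ‖S‖ ≤ 1) (x y : H) :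
    ∃ l : ℂ, Tendsto (fun n : ℕ => ⟪(S ^ n) x, (S ^ n) y⟫_ℂ) atTop (𝓝 l) := by
  obtain ⟨a, ha⟩ := norm_lim hS (x + y)
  obtain ⟨b, hb⟩ := norm_lim hS (x - y)
  obtain ⟨c, hc⟩ := norm_lim hS (x - Complex.I • y)
  obtain ⟨d, hd⟩ := norm_lim hS (x + Complex.I • y)
  refine ⟨(((a : ℝ) : ℂ) ^ 2 - ((b : ℝ) : ℂ) ^ 2 +
    (((c : ℝ) : ℂ) ^ 2 - ((d : ℝ) : ℂ) ^ 2) * Complex.I) / 4, ?_⟩
  have e : (fun n : ℕ => ⟪(S ^ n) x, (S ^ n) y⟫_ℂ) = fun n =>
      (((‖(S ^ n) (x + y)‖ : ℝ) : ℂ) ^ 2 - ((‖(S ^ n) (x - y)‖ : ℝ) : ℂ) ^ 2 +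
      (((‖(S ^ n) (x - Complex.I • y)‖ : ℝ) : ℂ) ^ 2 -
        ((‖(S ^ n) (x + Complex.I • y)‖ : ℝ) : ℂ) ^ 2) * Complex.I) / 4 := by
    funext n
    rw [inner_eq_sum_norm_sq_div_four]
    simp only [map_add, map_sub, map_smul]
    rfl
  rw [e]
  have oR : ∀ {f : ℕ → ℝ} {l : ℝ}, Tendsto f atTop (𝓝 l) →
      Tendsto (fun n => ((f n : ℝ) : ℂ)) atTop (𝓝 (l : ℂ)) := fun h =>
    (Complex.continuous_ofReal.tendsto _).comp h
  exact ((((oR ha).pow 2).sub ((oR hb).pow 2)).add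
    ((((oR hc).pow 2).sub ((oR hd).pow 2)).mul_const _)).div_const _

/-- the limit form -/
noncomputable def lf {S : H →L[ℂ] H} (hS : ‖S‖ ≤ 1) (x y : H) : ℂ := (inner_lim hS x y).choose

theorem lf_spec {S : H →L[ℂ] H} (hS : ‖S‖ ≤ 1) (x y : H) :
    Tendsto (fun n : ℕ => ⟪(S ^ n) x, (S ^ n) y⟫_ℂ) atTop (𝓝 (lf hS x y)) :=
  (inner_lim hS x y).choose_spec

theorem lf_norm {S : H →L[ℂ] H} (hS : ‖S‖ ≤ 1) (x y : H) : ‖lf hS x y‖ ≤ 1 * ‖x‖ * ‖y‖ := by
  refine le_of_tendsto (lf_spec hS x y).norm (Eventually.of_forall fun n => ?_)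
  calc ‖⟪(S ^ n) x, (S ^ n) y⟫_ℂ‖ ≤ ‖(S ^ n) x‖ * ‖(S ^ n) y‖ := norm_inner_le_norm _ _
    _ ≤ ‖x‖ * ‖y‖ := mul_le_mul (pow_norm_le hS n x) (pow_norm_le hS n y) (norm_nonneg _)
        (norm_nonneg _)
    _ = 1 * ‖x‖ * ‖y‖ := by ring

/-- the limit form as a bounded sesquilinear form -/
noncomputable def lF {S : H →L[ℂ] H} (hS : ‖S‖ ≤ 1) : H →L⋆[ℂ] H →L[ℂ] ℂ :=
  LinearMap.mkContinuous₂ (LinearMap.mk₂'ₛₗ (starRingEnd ℂ) (RingHom.id ℂ) (lf hS)
    (fun x x' y => by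
      refine tendsto_nhds_unique (lf_spec hS (x + x') y) ?_
      have := (lf_spec hS x y).add (lf_spec hS x' y)
      refine this.congr fun n => ?_
      rw [map_add, inner_add_left])
    (fun c x y => by
      refine tendsto_nhds_unique (lf_spec hS (c • x) y) ?_
      have := (lf_spec hS x y).const_mul (starRingEnd ℂ c)
      refine this.congr fun n => ?_
      rw [map_smul, inner_smul_left])
    (fun x y y' => by
      refine tendsto_nhds_unique (lf_spec hS x (y + y')) ?_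
      have := (lf_spec hS x y).add (lf_spec hS x y')
      refine this.congr fun n => ?_
      rw [map_add, inner_add_right])
    (fun c x y => by
      refine tendsto_nhds_unique (lf_spec hS x (c • y)) ?_
      have := (lf_spec hS x y).const_mul c
      refine this.congr fun n => ?_
      rw [map_smul, inner_smul_right])) 1 (fun x y => lf_norm hS x y)

theorem lF_apply {S : H →L[ℂ] H} (hS : ‖S‖ ≤ 1) (x y : H) : lF hS x y = lf hS x y := rfl

/-- the operator `lim S†^n S^n` -/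
noncomputable def AS {S : H →L[ℂ] H} (hS : ‖S‖ ≤ 1) : H →L[ℂ] H :=
  InnerProductSpace.continuousLinearMapOfBilin (lF hS)

theorem AS_inner {S : H →L[ℂ] H} (hS : ‖S‖ ≤ 1) (x y : H) : ⟪AS hS x, y⟫_ℂ = lf hS x y := by
  unfold AS
  rw [InnerProductSpace.continuousLinearMapOfBilin_apply, lF_apply]

theorem AS_symm {S : H →L[ℂ] H} (hS : ‖S‖ ≤ 1) (x y : H) : ⟪AS hS x, y⟫_ℂ = ⟪x, AS hS y⟫_ℂ := by
  rw [AS_inner, ← inner_conj_symm x, AS_inner]
  refine tendsto_nhds_unique (lf_spec hS x y) ?_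
  have := (Complex.continuous_conj.tendsto _).comp (lf_spec hS y x)
  refine this.congr fun n => ?_
  simp only [Function.comp]
  exact inner_conj_symm _ _

theorem AS_eq {S : H →L[ℂ] H} (hS : ‖S‖ ≤ 1) (x y : H) : ⟪AS hS (S x), S y⟫_ℂ = ⟪AS hS x, y⟫_ℂ := by
  rw [AS_inner, AS_inner]
  refine tendsto_nhds_unique (lf_spec hS (S x) (S y)) ?_
  have := (tendsto_add_atTop_iff_nat 1).2 (lf_spec hS x y)
  refine this.congr fun n => ?_
  rw [pow_succ, mul_apply_eq_comp, mul_apply_eq_comp]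

theorem AS_inj {S : H →L[ℂ] H} (hS : ‖S‖ ≤ 1)
    (h : ∀ x : H, Tendsto (fun n : ℕ => (S ^ n) x) atTop (𝓝 0) → x = 0) (x : H)
    (hx : AS hS x = 0) : x = 0 := by
  refine h x ?_
  have h1 := lf_spec hS x x
  rw [← AS_inner, hx, inner_zero_left] at h1
  rw [tendsto_zero_iff_norm_tendsto_zero]
  have h2 : Tendsto (fun n : ℕ => ‖(S ^ n) x‖ ^ 2) atTop (𝓝 0) := by
    have := h1.norm
    rw [norm_zero] at this
    refine this.congr fun n => ?_
    rw [inner_self_eq_norm_sq_to_K]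
    simp
  have h3 := h2.sqrt
  rw [Real.sqrt_zero] at h3
  refine h3.congr fun n => ?_
  exact Real.sqrt_sq (norm_nonneg _)

theorem denseRange_of_adj {A : H →L[ℂ] K} (h : ∀ x : K, ContinuousLinearMap.adjoint A x = 0 → x = 0) :
    DenseRange A := by
  have h1 : (A : H →ₗ[ℂ] K).rangeᗮ = ⊥ := by
    rw [ContinuousLinearMap.orthogonal_range, Submodule.eq_bot_iff]
    intro x hx
    exact h x hx
  have h2 := (Submodule.topologicalClosure_eq_top_iff).2 h1
  have h3 := (Submodule.dense_iff_topologicalClosure_eq_top).2 h2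
  change Dense (Set.range (A : H →ₗ[ℂ] K))
  rw [← LinearMap.coe_range]
  exact h3

theorem quasiSimilar (T : H →L[ℂ] H) (hT : ‖T‖ ≤ 1)
    (h1 : ∀ x : H, Tendsto (fun n : ℕ => (T ^ n) x) atTop (𝓝 0) → x = 0)
    (h2 : ∀ x : H, Tendsto (fun n : ℕ => (ContinuousLinearMap.adjoint T ^ n) x) atTop (𝓝 0) → x = 0)
    (U : K →L[ℂ] K) (X : H →L[ℂ] K) (hU : U ∈ unitary (K →L[ℂ] K))
    (hX : X.comp T = U.comp X) (hXd : DenseRange X)
    (hXn : ∀ x : H, Tendsto (fun n : ℕ => ‖(T ^ n) x‖) atTop (𝓝 ‖X x‖)) :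
    ∃ Y : K →L[ℂ] H, Function.Injective X ∧ DenseRange X ∧
      Function.Injective Y ∧ DenseRange Y ∧ X.comp T = U.comp X ∧ T.comp Y = Y.comp U := by
  have hTs : ‖ContinuousLinearMap.adjoint T‖ ≤ 1 := by
    rw [LinearIsometryEquiv.norm_map]; exact hT
  set A := AS hTs with hA
  have hXz : ∀ x, X x = 0 → x = 0 := by
    intro x hx
    refine h1 x ?_
    have := hXn x
    rw [hx, norm_zero] at this
    exact tendsto_zero_iff_norm_tendsto_zero.2 this
  have hXi : Function.Injective X := (injective_iff_map_eq_zero X).2 hXz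
  have hAz : ∀ x, A x = 0 → x = 0 := fun x hx => AS_inj hTs h2 x hx
  have hAsa : ContinuousLinearMap.adjoint A = A := by
    refine ContinuousLinearMap.ext fun x => ext_inner_right ℂ fun y => ?_
    rw [ContinuousLinearMap.adjoint_inner_left]
    exact (AS_symm hTs x y).symm
  have hAd : DenseRange A := denseRange_of_adj (by rw [hAsa]; exact hAz)
  have hXaz : ∀ y : K, ContinuousLinearMap.adjoint X y = 0 → y = 0 := by
    intro y hy
    have h3 : ∀ x : H, ⟪y, X x⟫_ℂ = 0 := by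
      intro x
      rw [← ContinuousLinearMap.adjoint_inner_left, hy, inner_zero_left]
    have h4 : ∀ z : K, ⟪y, z⟫_ℂ = 0 := by
      intro z
      have hcl : IsClosed {z : K | ⟪y, z⟫_ℂ = 0} := isClosed_eq (by fun_prop) continuous_const
      have hsub : closure (Set.range X) ⊆ {z : K | ⟪y, z⟫_ℂ = 0} :=
        closure_minimal (by rintro _ ⟨x, rfl⟩; exact h3 x) hcl
      exact hsub (hXd z)
    exact inner_self_eq_zero.1 (h4 y)
  have hXad : DenseRange (ContinuousLinearMap.adjoint X) :=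
    denseRange_of_adj (by rw [ContinuousLinearMap.adjoint_adjoint]; exact hXz)
  -- X† = T† X† U
  have hUU : ContinuousLinearMap.adjoint U * U = 1 := (Unitary.mem_iff.1 hU).1
  have hXa : ContinuousLinearMap.adjoint X =
      (ContinuousLinearMap.adjoint T).comp ((ContinuousLinearMap.adjoint X).comp U) := by
    have e := congrArg ContinuousLinearMap.adjoint hX
    rw [ContinuousLinearMap.adjoint_comp, ContinuousLinearMap.adjoint_comp] at e
    rw [← ContinuousLinearMap.comp_assoc, e, ContinuousLinearMap.comp_assoc]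
    have : (ContinuousLinearMap.adjoint U).comp U = ContinuousLinearMap.id ℂ K := hUU
    rw [this, ContinuousLinearMap.comp_id]
  have hTA : ∀ x : H, T (A (ContinuousLinearMap.adjoint T x)) = A x := by
    intro x
    refine ext_inner_right ℂ fun y => ?_
    rw [← ContinuousLinearMap.adjoint_inner_right]
    exact AS_eq hTs x y
  refine ⟨A.comp (ContinuousLinearMap.adjoint X), hXi, hXd, ?_, ?_, hX, ?_⟩
  · refine (injective_iff_map_eq_zero _).2 fun y hy => ?_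
    exact hXaz y (hAz _ hy)
  · exact hAd.comp hXad A.continuous
  · refine ContinuousLinearMap.ext fun y => ?_
    change T (A (ContinuousLinearMap.adjoint X y)) = A (ContinuousLinearMap.adjoint X (U y))
    have e := congrArg (fun Z : K →L[ℂ] H => Z y) hXa
    simp only [ContinuousLinearMap.comp_apply] at e
    rw [e, hTA]

end Pool.Agent.W730.OT
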